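import Pool.Agent.Helper69.MC.StC
import Pool.Agent.Helper69.MF.StA

/-!
# Project MC (MP_9583f0_gt), module CVS: three cells imply essential
-/

set_option autoImplicit false

namespace Pool.Agent.Helper29.MC

open Set Topology Filter MeasureTheory
open Pool.Agent.Helper31.CY Pool.Agent.Helper69.MF Pool.Agent.Helper69.MC

theorem hCVS (hLKA : StLKA) (hST1 : StST1) (hST2 : StST2) (hDSK : StDSK)
    (hHTE : Pool.Agent.Helper69.MF.StHTE) : StCVS := by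
  intro K0 K1 h S A hh hK0 hK1 hM hsl hC
  obtain ⟨_, hsymm, htrans, hlp, _, _⟩ := hHTE (Gm K0 K1 h)
  refine ⟨⟨fun γ hγ => hγ.1, ?_⟩, ?_, ?_⟩
  · intro γ hγ γ' hH
    refine ⟨hlp γ γ' hH, ?_⟩
    rintro ⟨c, hc⟩
    exact hγ.2 ⟨c, htrans _ _ _ hH hc⟩
  · intro γ hγ
    by_contra hno
    push Not at hno
    obtain ⟨γ1, h1, h1'⟩ := hST1 K0 K1 h S A hh hK0 hK1 hM hsl hC γ hγ.1 hno
    obtain ⟨γ2, h2, h2'⟩ := hST2 K0 K1 h S A hh hK0 hK1 hM hsl hC γ1 (hlp _ _ h1) h1'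
    have hl2 := hlp _ _ h2
    obtain ⟨c, hc⟩ := hDSK K0 K1 h hh hK0 hK1 γ2 ⟨hl2.1, hl2.2.1, h2'⟩
    exact hγ.2 ⟨c, htrans _ _ _ (htrans _ _ _ h1 h2) hc⟩
  · intro q hq hqG r hr hsp
    obtain ⟨γ, hγ, hγS⟩ := hLKA K0 K1 h S A hh hK0 hK1 hM hsl hC q hq hqG r hr
    obtain ⟨s, hs⟩ := hsp γ hγ
    exact hs.2 (hγS s hs.1)

end Pool.Agent.Helper29.MC
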